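import Pool.Agent.Helper20.RL.St5

/-!
# Project RL (MP_cb927e_an), module PON: the first level
-/

set_option autoImplicit false

open MeasureTheory Set Filter Topology
open scoped ENNReal RealInnerProductSpace

namespace Pool.Agent.Helper34.RL

open Pool.Agent.Helper20.RG Pool.Agent.Helper20.RL
open Pool.Agent.Helper68.LM (Pl BB Bd Av HL ft fm DQ)

theorem hPON (hLAM : StLAM) (hLAP : StLAP) (hPCS : StPCS) : StPON := by
  intro A σ q Cf hA hσ hσq hq2 hqq hCf
  obtain ⟨u₁, C₁, ε, hC₁, hε, H⟩ := hPCS A σ q (2 * Cf + 6) hA hσ hσq hq2 hqq (by linarith)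
  have hlog : 0 < ε * Real.log 2 := mul_pos hε (Real.log_pos (by norm_num))
  refine ⟨u₁ + ⌈2 * Cf + 6⌉₊ + ⌈4 / (q - 1)⌉₊ + 50,
    4 * C₁ * (3 / (ε * Real.log 2) + 1), by positivity, ?_⟩
  intro u K s c m E hu hSlo hj hK hE
  have hq1 : 0 < q - 1 := by linarith
  have hu1 : u₁ ≤ u := by omega
  have hu50 : 50 ≤ u := by omega
  have hua : 2 * Cf + 6 ≤ (u : ℝ) := by
    have h1 : ⌈2 * Cf + 6⌉₊ ≤ u := by omega
    exact (Nat.le_ceil _).trans (by exact_mod_cast h1)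
  have hub : 4 ≤ (q - 1) * (u : ℝ) := by
    have h1 : ⌈4 / (q - 1)⌉₊ ≤ u := by omega
    have h2 : 4 / (q - 1) ≤ (u : ℝ) := (Nat.le_ceil _).trans (by exact_mod_cast h1)
    rw [div_le_iff₀ hq1] at h2
    linarith
  have huR : (50 : ℝ) ≤ (u : ℝ) := by exact_mod_cast hu50
  have hu0 : (0 : ℝ) < (u : ℝ) := by linarith
  set D : ℝ := (2 : ℝ) ^ (-(q * u)) with hD
  have hDpos : 0 < D := Real.rpow_pos_of_pos (by norm_num) _
  -- the number of ages
  set I : ℕ := Nat.clog 2 (K + 3) with hI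
  have hKI : K + 3 ≤ 2 ^ I := Nat.le_pow_clog (by norm_num) _
  have hIK : (2 : ℝ) ^ I ≤ (2 * Cf + 6) * (2 : ℝ) ^ (σ * u) := by
    have h1 : 2 ^ (I - 1) < K + 3 := by
      have := Nat.pow_pred_clog_lt_self (b := 2) (by norm_num) (x := K + 3) (by omega)
      simpa [hI] using this
    have hIpos : 0 < I := by
      rw [hI]; exact Nat.clog_pos (by norm_num) (by omega)
    have h2 : 2 ^ I < 2 * (K + 3) := by
      have : 2 ^ I = 2 * 2 ^ (I - 1) := by
        rw [← pow_succ', Nat.sub_add_cancel hIpos]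
      omega
    have h3 : (2 : ℝ) ^ I < 2 * ((K : ℝ) + 3) := by exact_mod_cast h2
    have h4 : (1 : ℝ) ≤ (2 : ℝ) ^ (σ * u) :=
      Real.one_le_rpow (by norm_num) (by positivity)
    nlinarith
  have hI3 : I ≤ 3 * u := by
    have h1 : (2 : ℝ) ^ I ≤ (2 : ℝ) ^ (3 * u) := by
      have h2 : (2 : ℝ) ^ (σ * u) ≤ (2 : ℝ) ^ ((2 * u : ℕ) : ℝ) := by
        apply Real.rpow_le_rpow_of_exponent_le (by norm_num)
        push_cast
        nlinarith
      rw [Real.rpow_natCast] at h2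
      have h3 : 2 * Cf + 6 ≤ (2 : ℝ) ^ u := by
        have : (u : ℝ) ≤ (2 : ℝ) ^ u := by exact_mod_cast (Nat.lt_two_pow_self).le
        linarith
      calc (2 : ℝ) ^ I ≤ (2 * Cf + 6) * (2 : ℝ) ^ (σ * u) := hIK
        _ ≤ (2 : ℝ) ^ u * (2 : ℝ) ^ (2 * u) :=
            mul_le_mul h3 h2 (Real.rpow_nonneg (by norm_num) _) (by positivity)
        _ = (2 : ℝ) ^ (3 * u) := by rw [← pow_add]; congr 1; ring
    exact (pow_le_pow_iff_right₀ (by norm_num : (1 : ℝ) < 2)).mp h1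
  obtain ⟨-, hBM, hsum, hdens⟩ := hLAM E D hE hDpos
  -- the sets
  set S : ℕ → ℤ → ℕ → Set Pl := fun i l k' => {x | 1 / (u : ℝ) ^ 2 ≤
    ∑ j ∈ Finset.range (2 ^ u), Y (s j) (c j) (m j) (1 / (2 : ℝ) ^ u) (l * 2 ^ i + (k' : ℤ))
      ((Fa E D i l).indicator 1) x} with hS
  have hcover : {x | Loc (Cf + 10) D (E.indicator 1) x ∧ ∃ k : ℤ,
        1 / 8 ≤ ∑ j ∈ Finset.range (2 ^ u),
          Y (s j) (c j) (m j) (1 / (2 : ℝ) ^ u) k (E.indicator 1) x} ⊆
      ⋃ i ∈ Finset.range (I + 1), ⋃ l : ℤ, ⋃ k' ∈ Finset.range (2 ^ i), S i l k' := by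
    rintro x ⟨hloc, k, hk⟩
    have h1 : ∀ j ∈ Finset.range (2 ^ u),
        Y (s j) (c j) (m j) (1 / (2 : ℝ) ^ u) k (E.indicator 1) x ≤
        D + ∑ i ∈ Finset.range (I + 1),
          Y (s j) (c j) (m j) (1 / (2 : ℝ) ^ u) k ((Fa E D i (k / 2 ^ i)).indicator 1) x := by
      intro j hj'
      have hj2 : j < 2 ^ u := Finset.mem_range.mp hj'
      obtain ⟨hc, hm1, hm2⟩ := hj j hj2
      exact hLAP E D Cf (Cf + 10) K I (s j) (c j) (m j) u x k hE hDpos (hSlo.1 j hj2) hc hm2 hm1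
        le_rfl hKI hloc
    have h2 := hk.trans (Finset.sum_le_sum h1)
    rw [Finset.sum_add_distrib, Finset.sum_const, Finset.card_range, nsmul_eq_mul,
      Finset.sum_comm] at h2
    have h3 : ((2 ^ u : ℕ) : ℝ) * D ≤ 1 / 16 := by
      have e1 : ((2 ^ u : ℕ) : ℝ) * D = (2 : ℝ) ^ (-((q - 1) * u)) := by
        rw [hD]
        push_cast
        rw [← Real.rpow_natCast, ← Real.rpow_add (by norm_num)]
        congr 1; ring
      rw [e1]
      calc (2 : ℝ) ^ (-((q - 1) * u)) ≤ (2 : ℝ) ^ (-(4 : ℝ)) :=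
            Real.rpow_le_rpow_of_exponent_le (by norm_num) (by linarith)
        _ = 1 / 16 := by
          rw [show (-(4 : ℝ)) = ((-4 : ℤ) : ℝ) by norm_num, Real.rpow_intCast]; norm_num
    by_contra hcon
    have h4 : ∀ i ∈ Finset.range (I + 1),
        ∑ j ∈ Finset.range (2 ^ u),
          Y (s j) (c j) (m j) (1 / (2 : ℝ) ^ u) k ((Fa E D i (k / 2 ^ i)).indicator 1) x ≤
        1 / (u : ℝ) ^ 2 := by
      intro i hi
      by_contra hi2
      push Not at hi2
      apply hcon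
      have h2i : (0 : ℤ) < 2 ^ i := by positivity
      refine mem_biUnion hi (mem_iUnion.mpr ⟨k / 2 ^ i, mem_biUnion
        (x := (k % 2 ^ i).toNat) ?_ ?_⟩)
      · simp only [Finset.coe_range, mem_Iio]
        have h5 := Int.emod_lt_of_pos k h2i
        have h6 := Int.emod_nonneg k h2i.ne'
        zify
        rw [Int.toNat_of_nonneg h6]
        exact_mod_cast h5
      · have h6 := Int.emod_nonneg k h2i.ne'
        have e : k / 2 ^ i * 2 ^ i + (((k % 2 ^ i).toNat : ℕ) : ℤ) = k := by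
          rw [Int.toNat_of_nonneg h6]
          exact Int.ediv_mul_add_emod k (2 ^ i)
        simp only [hS, mem_ofPred_eq]
        rw [e]
        exact hi2.le
    have h5 := Finset.sum_le_sum h4
    rw [Finset.sum_const, Finset.card_range, nsmul_eq_mul] at h5
    have h6 : ((I + 1 : ℕ) : ℝ) * (1 / (u : ℝ) ^ 2) < 1 / 16 := by
      rw [mul_one_div, div_lt_div_iff₀ (by positivity) (by norm_num)]
      have : ((I + 1 : ℕ) : ℝ) ≤ 3 * u + 1 := by exact_mod_cast Nat.succ_le_succ hI3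
      nlinarith
    linarith
  -- the measure
  have hmeas : ∀ i ∈ Finset.range (I + 1), ∀ l : ℤ, ∑ k' ∈ Finset.range (2 ^ i), volume (S i l k') ≤
      ENNReal.ofReal (C₁ * (2 : ℝ) ^ ((q - ε) * u)) * volume (Fa E D i l) := by
    intro i hi l
    have hi' : i ≤ I := Nat.lt_succ_iff.mp (Finset.mem_range.mp hi)
    refine H u (2 ^ i) (l * 2 ^ i) s c m (Fa E D i l) hu1 hSlo ?_ ?_ (hBM i l).1 ?_
    · intro j hj'
      obtain ⟨hc, hm1, -⟩ := hj j hj'
      exact ⟨by linarith, hm1⟩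
    · push_cast
      exact (pow_le_pow_right₀ (by norm_num) hi').trans hIK
    · intro y k' hk'
      refine (hdens i l y k' hk').trans (ENNReal.ofReal_le_ofReal ?_)
      have : 0 ≤ D * (4 : ℝ) ^ k' := by positivity
      nlinarith
  calc volume {x | Loc (Cf + 10) D (E.indicator 1) x ∧ ∃ k : ℤ,
        1 / 8 ≤ ∑ j ∈ Finset.range (2 ^ u),
          Y (s j) (c j) (m j) (1 / (2 : ℝ) ^ u) k (E.indicator 1) x}
      ≤ volume (⋃ i ∈ Finset.range (I + 1), ⋃ l : ℤ, ⋃ k' ∈ Finset.range (2 ^ i), S i l k') :=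
        measure_mono hcover
    _ ≤ ∑ i ∈ Finset.range (I + 1), volume (⋃ l : ℤ, ⋃ k' ∈ Finset.range (2 ^ i), S i l k') :=
        measure_biUnion_finset_le _ _
    _ ≤ ∑ i ∈ Finset.range (I + 1), ∑' l : ℤ, ∑ k' ∈ Finset.range (2 ^ i), volume (S i l k') := by
        refine Finset.sum_le_sum fun i _ => (measure_iUnion_le _).trans ?_
        exact ENNReal.tsum_le_tsum fun l => measure_biUnion_finset_le _ _
    _ ≤ ∑ i ∈ Finset.range (I + 1), ENNReal.ofReal (C₁ * (2 : ℝ) ^ ((q - ε) * u)) *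
          (4 * volume E) := by
        refine Finset.sum_le_sum fun i hi => ?_
        refine (ENNReal.tsum_le_tsum fun l => hmeas i hi l).trans ?_
        rw [ENNReal.tsum_mul_left]
        gcongr
        exact hsum i
    _ = ENNReal.ofReal (((I + 1 : ℕ) : ℝ) * (C₁ * (2 : ℝ) ^ ((q - ε) * u)) * 4) * volume E := by
        rw [Finset.sum_const, Finset.card_range, nsmul_eq_mul]
        have f1 : ENNReal.ofReal (((I + 1 : ℕ) : ℝ) * (C₁ * (2 : ℝ) ^ ((q - ε) * u)) * 4) =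
            ((I + 1 : ℕ) : ℝ≥0∞) * ENNReal.ofReal (C₁ * (2 : ℝ) ^ ((q - ε) * u)) * 4 := by
          rw [ENNReal.ofReal_mul (p := ((I + 1 : ℕ) : ℝ) * (C₁ * (2 : ℝ) ^ ((q - ε) * u)))
            (by positivity), ENNReal.ofReal_mul (p := ((I + 1 : ℕ) : ℝ)) (by positivity),
            ENNReal.ofReal_natCast]
          rw [show ENNReal.ofReal 4 = 4 by norm_num]
        rw [f1]
        ring
    _ ≤ ENNReal.ofReal (4 * C₁ * (3 / (ε * Real.log 2) + 1) * (2 : ℝ) ^ (q * u)) * volume E := by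
        refine mul_le_mul' (ENNReal.ofReal_le_ofReal ?_) le_rfl
        have e1 : (2 : ℝ) ^ (q * u) = (2 : ℝ) ^ (ε * u) * (2 : ℝ) ^ ((q - ε) * u) := by
          rw [← Real.rpow_add (by norm_num)]; congr 1; ring
        have e2 : (I : ℝ) + 1 ≤ (3 / (ε * Real.log 2) + 1) * (2 : ℝ) ^ (ε * u) := by
          have f1 : (I : ℝ) ≤ 3 * u := by exact_mod_cast hI3
          have f2 : (1 : ℝ) ≤ (2 : ℝ) ^ (ε * u) := Real.one_le_rpow (by norm_num) (by positivity)
          have f3 : (u : ℝ) ≤ 1 / (ε * Real.log 2) * (2 : ℝ) ^ (ε * u) := by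
            have g1 : ε * Real.log 2 * u ≤ (2 : ℝ) ^ (ε * u) := by
              rw [Real.rpow_def_of_pos (by norm_num)]
              have := Real.add_one_le_exp (Real.log 2 * (ε * u))
              nlinarith
            rw [one_div, ← div_eq_inv_mul, le_div_iff₀ hlog]
            linarith
          have f4 : (3 / (ε * Real.log 2) + 1) * (2 : ℝ) ^ (ε * u) =
              3 * (1 / (ε * Real.log 2) * (2 : ℝ) ^ (ε * u)) + (2 : ℝ) ^ (ε * u) := by ring
          rw [f4]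
          linarith
        rw [e1]
        have e3 : 0 ≤ C₁ * (2 : ℝ) ^ ((q - ε) * u) := by positivity
        push_cast
        calc ((I : ℝ) + 1) * (C₁ * (2 : ℝ) ^ ((q - ε) * u)) * 4
            ≤ ((3 / (ε * Real.log 2) + 1) * (2 : ℝ) ^ (ε * u)) *
              (C₁ * (2 : ℝ) ^ ((q - ε) * u)) * 4 := by gcongr
          _ = 4 * C₁ * (3 / (ε * Real.log 2) + 1) *
              ((2 : ℝ) ^ (ε * u) * (2 : ℝ) ^ ((q - ε) * u)) := by ring

end Pool.Agent.Helper34.RL
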